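import Mathlib
import Pool.Agent.MP_e7dd50_an.Standing

open Pool.Agent.MP_e7dd50_an

/-- The quotient `SL(4, ℝ) / SL(4, ℤ)` and the positive diagonal group `A` satisfy the standing
hypothesis, and there is an orbit of `A` that is not dense and whose closure is not contained in
the union of the orbit with countably many sets `g [L(ℝ)]`, `L` a proper `ℚ`-subgroup of
`SL(4)`. -/
theorem Pool.Agent.Results.MP_e7dd50_an.Counterexample.result :
    StandingHypothesis posDiag ∧
    ∃ x : Matrix.SpecialLinearGroup (Fin 4) ℝ ⧸ intPoints,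
      ¬ Dense (MulAction.orbit posDiag x) ∧
      ∀ (ι : Type) [Countable ι] (L : ι → Subgroup (Matrix.SpecialLinearGroup (Fin 4) ℂ))
        (g : ι → Matrix.SpecialLinearGroup (Fin 4) ℝ),
        (∀ i, IsQSubgroup (L i) ∧ L i ≠ ⊤) →
        ¬ closure (MulAction.orbit posDiag x) ⊆ MulAction.orbit posDiag x ∪
          ⋃ i, (fun l => ((g i * l : Matrix.SpecialLinearGroup (Fin 4) ℝ) :
            Matrix.SpecialLinearGroup (Fin 4) ℝ ⧸ intPoints)) '' (realPoints (L i)) := by
  obtain ⟨x, hx, h⟩ := core
  exact ⟨standing, x, hx, fun ι _ L g hL => h ι (fun i => realPoints (L i)) g fun i =>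
    ⟨(hL i).1.isClosed_realPoints, (hL i).1.realPoints_ne_top (hL i).2⟩⟩
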